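import Pool.Agent.Q50.ES.Main

/-!
# Newforms of level one decide the Eichler-Shimura conjecture

Let `M₀` be any totally real Galois extension of `ℚ` with solvable Galois group, for instance a real
cyclotomic field. The Eichler-Shimura conjecture for all newforms over all totally real fields of even
degree, whose level is not exactly divisible by a prime, holds if and only if it holds for the newforms
of level one without complex multiplication over the totally real fields `F ⊇ M₀` of even degree.

The base change of a newform `f` over `F` whose local components are principal series to a suitable
totally real solvable extension `L` of `F` has level one. The abelian variety over `L` associated with
the base change is descended to `F`: this is proved from the theorem of Faltings. The obstruction, a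
function on the Galois group of `F` with values in the scalars, is computed from the traces of Frobenius
elements, and it vanishes because these traces lie in the field of the coefficients of `f`.
-/

set_option autoImplicit false

universe u

namespace Pool.Agent.Results.MP_e1ffa3_nt.LevelOneDecides

open Pool.Agent.Q50.ES NumberField

/-- **Level one decides.** Let `M₀` be a totally real Galois extension of `ℚ` with solvable Galois group.
The Eichler-Shimura conjecture for the newforms over totally real fields of even degree whose level is
not exactly divisible by a prime holds if and only if it holds for the newforms of level one without
complex multiplication over totally real fields of even degree which contain `M₀`. -/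
theorem result {K : Type u} [Field K] [TopologicalSpace K] [IsTopologicalRing K] [T1Space K]
    (T : Data K) (hT : T.Facts) (M₀ : Fld) (hM : TotallyReal M₀) (hG : SolvableGalois M₀) :
    (∀ F, TotallyReal F → EvenDegree F → ∀ f : T.Form F,
        NoExactDivisor (T.level f) → T.Associated f) ↔
      ∀ F, TotallyReal F → EvenDegree F → M₀ ≤ F → ∀ f : T.Form F,
        UnitIdeal (T.level f) → ¬ T.CM f → T.Associated f :=
  Data.level_one hT hM hG

end Pool.Agent.Results.MP_e1ffa3_nt.LevelOneDecides
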